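import Mathlib
import Pool.Agent.Lib.MP_be2ccc_co.AS.Cover

/-!
# The weighing matrix conjecture in the orders `2^t m`, for every odd `m` and `t` large

For every odd `m` there is a `T` with `2^T ≤ m^8` such that a skew Hadamard matrix of order
`2^T m` exists and, for every `t` with `2^t ≥ 4^T m` (in particular whenever `2^t ≥ m^17`), there
are weighing matrices of order `2^t m` of all weights `0 ≤ k ≤ 2^t m`.
-/

set_option autoImplicit false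

namespace Pool.Agent.Lib.MP_be2ccc_co.Old.AllOddParts

/-- There is a weighing matrix of order `n` and weight `k`. -/
def W (n k : ℕ) : Prop :=
  ∃ A : Matrix (Fin n) (Fin n) ℤ,
    (∀ i j, A i j = 0 ∨ A i j = 1 ∨ A i j = -1) ∧
    A.transpose * A = (k : ℤ) • (1 : Matrix (Fin n) (Fin n) ℤ) ∧
    A * A.transpose = (k : ℤ) • (1 : Matrix (Fin n) (Fin n) ℤ)

/-- There is a skew Hadamard matrix of order `n`. -/
def SkewHadamard (n : ℕ) : Prop :=
  ∃ H : Matrix (Fin n) (Fin n) ℤ,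
    (∀ i j, H i j = 1 ∨ H i j = -1) ∧
    H + H.transpose = (2 : ℤ) • (1 : Matrix (Fin n) (Fin n) ℤ) ∧
    H * H.transpose = (n : ℤ) • (1 : Matrix (Fin n) (Fin n) ℤ)

lemma W_iff (n k : ℕ) : W n k ↔ Pool.Agent.Lib.MP_be2ccc_co.HasW n k :=
  ⟨fun ⟨A, hA, _, h⟩ => ⟨A, hA, h⟩,
    fun ⟨A, hA, h⟩ => ⟨A, hA, Pool.Agent.Lib.MP_be2ccc_co.both_sides A h, h⟩⟩

/-- For every odd `m` there is a `T` with `2^T ≤ m^8` such that there is a skew Hadamard matrix of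
order `2^T m`, and a `W(2^t m, k)` exists for all `k ≤ 2^t m` and all `t` with `2^t ≥ 4^T m`. -/
theorem result :
    ∀ m : ℕ, m % 2 = 1 →
      ∃ T : ℕ, 2 ^ T ≤ m ^ 8 ∧ SkewHadamard (2 ^ T * m) ∧
        ∀ t k : ℕ, 4 ^ T * m ≤ 2 ^ t → k ≤ 2 ^ t * m → W (2 ^ t * m) k := by
  intro m hm
  obtain ⟨h, rfl⟩ : ∃ h, m = 2 * h + 1 := ⟨m / 2, by omega⟩
  obtain ⟨R, hR, hR2⟩ : ∃ R : ℕ, h < 2 ^ R ∧ 2 ^ R ≤ 2 * h + 1 := by
    refine ⟨Nat.size h, Nat.lt_size_self h, ?_⟩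
    rcases Nat.eq_zero_or_pos h with h0 | h0
    · subst h0; simp
    · have h1 : 0 < Nat.size h := Nat.size_pos.2 h0
      have h2 : 2 ^ (Nat.size h - 1) ≤ h := Nat.lt_size.1 (by omega)
      have h3 : 2 ^ Nat.size h = 2 ^ (Nat.size h - 1) * 2 := by
        rw [← pow_succ]; congr 1; omega
      omega
  refine ⟨8 * R, ?_, Pool.Agent.Lib.MP_be2ccc_co.AS.skew_hadamard h R hR, ?_⟩
  · calc 2 ^ (8 * R) = (2 ^ R) ^ 8 := by rw [← pow_mul, mul_comm]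
      _ ≤ (2 * h + 1) ^ 8 := Nat.pow_le_pow_left hR2 8
  · intro t k ht hk
    rw [W_iff]
    have h1 : (4 : ℕ) ^ (8 * R) = 2 ^ (8 * R) * 2 ^ (8 * R) := by
      rw [← mul_pow]; norm_num
    have hTt : 8 * R ≤ t := by
      have h2 : 2 ^ (8 * R) ≤ 2 ^ t := by
        refine le_trans ?_ ht
        rw [h1]
        have h3 : 1 ≤ 2 ^ (8 * R) := Nat.one_le_two_pow
        have h4 : 1 ≤ 2 ^ (8 * R) * (2 * h + 1) := Nat.mul_pos h3 (by omega)
        calc 2 ^ (8 * R) = 2 ^ (8 * R) * 1 := (mul_one _).symm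
          _ ≤ 2 ^ (8 * R) * (2 ^ (8 * R) * (2 * h + 1)) := Nat.mul_le_mul_left _ h4
          _ = _ := by ring
      exact (Nat.pow_le_pow_iff_right (by norm_num)).1 h2
    have e0 : 2 ^ t = 2 ^ (t - 8 * R) * 2 ^ (8 * R) := by
      rw [← pow_add]
      congr 1
      omega
    have e1 : 2 ^ t * (2 * h + 1) = 2 ^ (t - 8 * R) * (2 ^ (8 * R) * (2 * h + 1)) := by
      rw [e0, mul_assoc]
    have h3 : 2 ^ (8 * R) * (2 * h + 1) ≤ 2 ^ (t - 8 * R) := by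
      rw [e0, h1] at ht
      have h5 : 2 ^ (8 * R) * (2 * h + 1) * 2 ^ (8 * R) ≤ 2 ^ (t - 8 * R) * 2 ^ (8 * R) := by
        calc 2 ^ (8 * R) * (2 * h + 1) * 2 ^ (8 * R) =
            2 ^ (8 * R) * 2 ^ (8 * R) * (2 * h + 1) := by ring
          _ ≤ _ := ht
      exact Nat.le_of_mul_le_mul_right h5 (by positivity)
    rw [e1] at hk ⊢
    exact Pool.Agent.Lib.MP_be2ccc_co.AS.all_weights h R (t - 8 * R) k hR h3 hk

/-- In particular: for every odd `m` the weighing matrix conjecture holds in all orders `2^t m`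
with `2^t ≥ m^17`. -/
theorem large (m : ℕ) (hm : m % 2 = 1) (t k : ℕ) (ht : m ^ 17 ≤ 2 ^ t) (hk : k ≤ 2 ^ t * m) :
    W (2 ^ t * m) k := by
  obtain ⟨T, hT, _, h⟩ := result m hm
  refine h t k (le_trans ?_ ht) hk
  have h1 : (4 : ℕ) ^ T = 2 ^ T * 2 ^ T := by rw [← mul_pow]; norm_num
  calc 4 ^ T * m = 2 ^ T * 2 ^ T * m := by rw [h1]
    _ ≤ m ^ 8 * m ^ 8 * m := Nat.mul_le_mul_right _ (Nat.mul_le_mul hT hT)
    _ = m ^ 17 := by ring

end Pool.Agent.Lib.MP_be2ccc_co.Old.AllOddParts
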