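import Mathlib
import Pool.Agent.Lib.MP_be2ccc_co.NF.Main

/-!
# Weighing matrices of nearly all weights in the orders `2^t m`

For `n = 2^t m` (any `m ≥ 1`) there is a weighing matrix of order `n` and weight `k` for all
`k ≤ n - C m^(8/7) n^(6/7)`, where `C^7 = 4 * 18^7`.
-/

set_option autoImplicit false

namespace Pool.Agent.Lib.MP_be2ccc_co.Old.NearFull

/-- If `n = 2^t m`, `k ≤ n` and `(n - k)^7 ≥ 4 * 18^7 * m^8 * n^6`, then there is a weighing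
matrix of order `n` and weight `k`. -/
theorem result (m t k : ℕ) (hm : 1 ≤ m) (hk : k ≤ 2 ^ t * m)
    (hL : 4 * 18 ^ 7 * m ^ 8 * (2 ^ t * m) ^ 6 ≤ (2 ^ t * m - k) ^ 7) :
    ∃ A : Matrix (Fin (2 ^ t * m)) (Fin (2 ^ t * m)) ℤ,
      (∀ i j, A i j = 0 ∨ A i j = 1 ∨ A i j = -1) ∧
      A.transpose * A = (k : ℤ) • (1 : Matrix (Fin (2 ^ t * m)) (Fin (2 ^ t * m)) ℤ) ∧
      A * A.transpose = (k : ℤ) • (1 : Matrix (Fin (2 ^ t * m)) (Fin (2 ^ t * m)) ℤ) := by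
  obtain ⟨A, hA, hAA⟩ := Pool.Agent.Lib.MP_be2ccc_co.NF.near_full m t k hm hk hL
  exact ⟨A, hA, Pool.Agent.Lib.MP_be2ccc_co.both_sides A hAA, hAA⟩

end Pool.Agent.Lib.MP_be2ccc_co.Old.NearFull
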