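import Mathlib
import Pool.Agent.Lib.MP_be2ccc_co.NF.Conf
import Pool.Agent.Lib.MP_be2ccc_co.SH.Main

/-!
# The weighing matrix conjecture in the orders `2^t m`, `t` large, `m` a prime power, `m % 8 ≠ 1`

Let `m` be odd, and suppose that `m` is a prime power with `m % 8 ≠ 1`, or that some
`W(2^s m, 2^s m - 1)` with `s ≥ 2` exists (equivalently, a skew Hadamard matrix of order `2^s m`).
Then there is a least `T ≥ 2` such that a `W(2^T m, 2^T m - 1)` exists, and for every `t` with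
`2^t ≥ 18^7 (2^T m)^8 2^T` there are weighing matrices of order `2^t m` of all weights
`0 ≤ k ≤ 2^t m`.
-/

set_option autoImplicit false

namespace Pool.Agent.Lib.MP_be2ccc_co.Old.PrimePowerOrders

/-- There is a weighing matrix of order `n` and weight `k`. -/
def W (n k : ℕ) : Prop :=
  ∃ A : Matrix (Fin n) (Fin n) ℤ,
    (∀ i j, A i j = 0 ∨ A i j = 1 ∨ A i j = -1) ∧
    A.transpose * A = (k : ℤ) • (1 : Matrix (Fin n) (Fin n) ℤ) ∧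
    A * A.transpose = (k : ℤ) • (1 : Matrix (Fin n) (Fin n) ℤ)

lemma W_iff (n k : ℕ) : W n k ↔ Pool.Agent.Lib.MP_be2ccc_co.HasW n k :=
  ⟨fun ⟨A, hA, _, h⟩ => ⟨A, hA, h⟩,
    fun ⟨A, hA, h⟩ => ⟨A, hA, Pool.Agent.Lib.MP_be2ccc_co.both_sides A h, h⟩⟩

/-- If `4 ∣ h` and a `W(h, h - 1)` exists, then a `W(2^r h, k)` exists for all `k ≤ 2^r h` and all
`r` with `2^r ≥ 18^7 h^8`. -/
theorem conference (h : ℕ) (h4 : 4 ∣ h) (hW : W h (h - 1)) (r : ℕ) (hr : 18 ^ 7 * h ^ 8 ≤ 2 ^ r)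
    (k : ℕ) (hk : k ≤ 2 ^ r * h) : W (2 ^ r * h) k := by
  rw [W_iff] at hW ⊢
  exact Pool.Agent.Lib.MP_be2ccc_co.NF.conf_all h r k h4 hW hr hk

/-- Let `m` be odd, and let `m` be a prime power with `m % 8 ≠ 1`, or suppose that a
`W(2^s m, 2^s m - 1)` exists for some `s ≥ 2`. Then there is a least `T ≥ 2` such that a
`W(2^T m, 2^T m - 1)` exists, and a `W(2^t m, k)` exists for all `k ≤ 2^t m` and all `t` with
`2^t ≥ 18^7 (2^T m)^8 2^T`. -/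
theorem result :
    ∀ m : ℕ, m % 2 = 1 →
      ((IsPrimePow m ∧ m % 8 ≠ 1) ∨ ∃ s : ℕ, 2 ≤ s ∧ W (2 ^ s * m) (2 ^ s * m - 1)) →
      ∃ T : ℕ, 2 ≤ T ∧ W (2 ^ T * m) (2 ^ T * m - 1) ∧
        (∀ s : ℕ, 2 ≤ s → W (2 ^ s * m) (2 ^ s * m - 1) → T ≤ s) ∧
        ∀ t k : ℕ, 18 ^ 7 * (2 ^ T * m) ^ 8 * 2 ^ T ≤ 2 ^ t → k ≤ 2 ^ t * m →
          W (2 ^ t * m) k := by
  intro m hm h
  classical
  have hex : ∃ s : ℕ, 2 ≤ s ∧ W (2 ^ s * m) (2 ^ s * m - 1) := by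
    rcases h with ⟨hq, h8⟩ | h
    · obtain ⟨T, hT, hW⟩ := Pool.Agent.Lib.MP_be2ccc_co.SH.conf_prime_pow m hq hm h8
      exact ⟨T, hT, (W_iff _ _).2 hW⟩
    · exact h
  obtain ⟨hT, hW⟩ := Nat.find_spec hex
  refine ⟨Nat.find hex, hT, hW, fun s hs hWs => Nat.find_min' hex ⟨hs, hWs⟩, ?_⟩
  generalize Nat.find hex = T at hT hW
  intro t k ht hk
  have hm0 : 0 < m := by omega
  have h1 : 1 ≤ 18 ^ 7 * (2 ^ T * m) ^ 8 := Nat.one_le_iff_ne_zero.2 (by positivity)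
  have hTt : T ≤ t := by
    have h2 : 2 ^ T ≤ 2 ^ t := le_trans (by nlinarith [Nat.zero_le (2 ^ T)]) ht
    exact (Nat.pow_le_pow_iff_right (by norm_num)).1 h2
  have e0 : 2 ^ t = 2 ^ (t - T) * 2 ^ T := by
    rw [← pow_add]
    congr 1
    omega
  have e1 : 2 ^ t * m = 2 ^ (t - T) * (2 ^ T * m) := by
    rw [e0, mul_assoc]
  have h3 : 18 ^ 7 * (2 ^ T * m) ^ 8 ≤ 2 ^ (t - T) := by
    rw [e0] at ht
    exact Nat.le_of_mul_le_mul_right ht (by positivity)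
  rw [e1] at hk ⊢
  refine conference (2 ^ T * m) ?_ hW (t - T) h3 k hk
  obtain ⟨T', rfl⟩ : ∃ T', T = T' + 2 := ⟨T - 2, by omega⟩
  exact ⟨2 ^ T' * m, by ring⟩

end Pool.Agent.Lib.MP_be2ccc_co.Old.PrimePowerOrders
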